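import Pool.Agent.Helper60.BFT.GoalsC
import Pool.Agent.Helper60.BFT.AvBasic

/-!
# The signed sum, averaged over the large residue classes
-/

set_option autoImplicit false

open Finset

namespace Pool.Agent.Helper93.BFT

open Pool.Agent.Helper60.BFT (Av lg yA XA CorrA SGG bad Av_add Av_sub Av_mul_left Av_sum Av_mono
  abs_Av_le)
open Pool.Agent.Helper90.Twin (Ps Gz GG SieveSys cc avgI sig XX avS sum_key avS_eq mem_Ps card_root
  card_insert_two insert_two_le card_powersetCard_Ioo_le cc_nonneg tail_main alt_main Ps_mono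
  Gz_pos TT bonferroni_abs)

theorem bad_iff (A : ℕ → ℕ) (p t : ℕ) : bad A p t ↔ (p ∣ 6 * t + A p ∨ p ∣ 6 * t + (A p + 2)) := by
  unfold bad
  rw [add_assoc]

theorem yA_sum (A : ℕ → ℕ) {p : ℕ} (hp : p.Prime) (h5 : 5 ≤ p) : ∑ x ∈ range p, yA A p x = 2 := by
  classical
  have h1 : ∀ x, yA A p x = (if p ∣ 6 * x + A p then (1 : ℝ) else 0)
      + (if p ∣ 6 * x + (A p + 2) then (1 : ℝ) else 0) := by
    intro x
    have h2 : ¬ (p ∣ 6 * x + A p ∧ p ∣ 6 * x + (A p + 2)) := by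
      rintro ⟨h1, h2⟩
      have h3 : p ∣ (6 * x + (A p + 2)) - (6 * x + A p) := Nat.dvd_sub h2 h1
      have h4 : (6 * x + (A p + 2)) - (6 * x + A p) = 2 := by omega
      rw [h4] at h3
      have := Nat.le_of_dvd (by norm_num) h3
      omega
    unfold yA
    simp only [bad_iff]
    by_cases ha : p ∣ 6 * x + A p <;> by_cases hb : p ∣ 6 * x + (A p + 2) <;> simp [ha, hb]
    exact absurd ⟨ha, hb⟩ h2
  simp_rw [h1]
  rw [Finset.sum_add_distrib, Finset.sum_boole, Finset.sum_boole, card_root hp h5,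
    card_root hp h5]
  norm_num

theorem yA_per (A : ℕ → ℕ) (p x : ℕ) : yA A p (x + p) = yA A p x := by
  have h0 : bad A p (x + p) ↔ bad A p x := by
    rw [bad_iff, bad_iff]
    have h1 : 6 * (x + p) + A p = 6 * x + A p + p * 6 := by ring
    have h2 : 6 * (x + p) + (A p + 2) = 6 * x + (A p + 2) + p * 6 := by ring
    rw [h1, h2, Nat.dvd_add_left (Dvd.intro 6 rfl : p ∣ p * 6),
      Nat.dvd_add_left (Dvd.intro 6 rfl : p ∣ p * 6)]
  unfold yA
  by_cases hb : bad A p x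
  · rw [if_pos (h0.2 hb), if_pos hb]
  · rw [if_neg (fun h => hb (h0.1 h)), if_neg hb]

theorem sieveSysA (A : ℕ → ℕ) (z : ℕ) : SieveSys (Ps z) (yA A) where
  odd := by
    intro p hp
    rw [mem_Ps] at hp
    exact hp.2.2.odd_of_ne_two (by omega)
  five := fun p hp => (mem_Ps.1 hp).1
  cop := by
    intro p hp q hq hpq
    have h1 := (mem_Ps.1 (Finset.mem_coe.1 hp)).2.2
    have h2 := (mem_Ps.1 (Finset.mem_coe.1 hq)).2.2
    exact (Nat.coprime_primes h1 h2).2 hpq
  zero_one := by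
    intro p _ x
    unfold yA
    split_ifs
    · exact Or.inr rfl
    · exact Or.inl rfl
  per := fun p _ x => yA_per A p x
  two := by
    intro p hp
    rw [mem_Ps] at hp
    exact yA_sum A hp.2.2 hp.1

theorem XA_nonneg (Z : ℕ) (A : ℕ → ℕ) (t : ℕ) : 0 ≤ XA Z A t := (sieveSysA A Z).XX_nonneg t

theorem XA_le_one (Z : ℕ) (A : ℕ → ℕ) (t : ℕ) : XA Z A t ≤ 1 := (sieveSysA A Z).XX_le_one t

/-- transfer, averaged -/
theorem transferA {r Z H k N : ℕ} {A : ℕ → ℕ} {δ E : ℝ} (hC : CorrA r Z H k N A δ E) (hE : 0 ≤ E)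
    (ε : ℕ → ℝ) (hε : ∀ g, |ε g| ≤ 1) {j : ℕ} (hj : j + 2 ≤ k) :
    |Av (lg r Z) (fun B => ∑ t ∈ range N, XA Z B t * ∑ g ∈ Icc 1 H, ε g * XA Z B (t + g) *
        Pool.Agent.Helper90.Twin.EE (Ioo 0 g) (fun i => XA Z B (t + i)) j) A
      - N * (cc (Ps Z \ Ps (3 * H + 1)) (j + 2) * avS (Ps (3 * H + 1)) (yA A) ε H j)|
      ≤ δ * (N * (cc (Ps Z \ Ps (3 * H + 1)) (j + 2) *
          avS (Ps (3 * H + 1)) (yA A) (fun _ => 1) H j)) + (H : ℝ) ^ (j + 1) * E := by
  set s := Ps (3 * H + 1) with hs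
  set s' := Ps Z \ s with hs'
  set y := yA A with hy
  have e0 : Av (lg r Z) (fun B => ∑ t ∈ range N, XA Z B t * ∑ g ∈ Icc 1 H, ε g * XA Z B (t + g) *
        Pool.Agent.Helper90.Twin.EE (Ioo 0 g) (fun i => XA Z B (t + i)) j) A
      = ∑ g ∈ Icc 1 H, ∑ J ∈ (Ioo 0 g).powersetCard j, ε g *
          Av (lg r Z) (fun B => ∑ t ∈ range N, ∏ i ∈ insert 0 (insert g J), XA Z B (t + i)) A := by
    have h1 : (fun B => ∑ t ∈ range N, XA Z B t * ∑ g ∈ Icc 1 H, ε g * XA Z B (t + g) *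
        Pool.Agent.Helper90.Twin.EE (Ioo 0 g) (fun i => XA Z B (t + i)) j)
        = fun B => ∑ g ∈ Icc 1 H, ∑ J ∈ (Ioo 0 g).powersetCard j, ε g *
          ∑ t ∈ range N, ∏ i ∈ insert 0 (insert g J), XA Z B (t + i) :=
      funext (fun B => sum_key ε (XA Z B) N)
    rw [h1, Av_sum]
    apply Finset.sum_congr rfl
    intro g _
    rw [Av_sum]
    apply Finset.sum_congr rfl
    intro J _
    rw [Av_mul_left]
  rw [e0, avS_eq, avS_eq]
  have e1 : N * (cc s' (j + 2) * ∑ g ∈ Icc 1 H, ∑ J ∈ (Ioo 0 g).powersetCard j,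
        ε g * avgI s y (insert 0 (insert g J)))
      = ∑ g ∈ Icc 1 H, ∑ J ∈ (Ioo 0 g).powersetCard j,
          ε g * (N * (cc s' (j + 2) * avgI s y (insert 0 (insert g J)))) := by
    rw [Finset.mul_sum, Finset.mul_sum]
    apply Finset.sum_congr rfl
    intro g _
    rw [Finset.mul_sum, Finset.mul_sum]
    apply Finset.sum_congr rfl
    intro J _
    ring
  have e2 : δ * (N * (cc s' (j + 2) * ∑ g ∈ Icc 1 H, ∑ J ∈ (Ioo 0 g).powersetCard j,
        (1 : ℝ) * avgI s y (insert 0 (insert g J))))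
      = ∑ g ∈ Icc 1 H, ∑ J ∈ (Ioo 0 g).powersetCard j,
          δ * (N * (cc s' (j + 2) * avgI s y (insert 0 (insert g J)))) := by
    rw [Finset.mul_sum, Finset.mul_sum, Finset.mul_sum]
    apply Finset.sum_congr rfl
    intro g _
    rw [Finset.mul_sum, Finset.mul_sum, Finset.mul_sum]
    apply Finset.sum_congr rfl
    intro J _
    ring
  rw [e1, e2, ← Finset.sum_sub_distrib]
  refine (Finset.abs_sum_le_sum_abs _ _).trans ?_
  have h1 : ∀ g ∈ Icc 1 H, |∑ J ∈ (Ioo 0 g).powersetCard j, ε g *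
          Av (lg r Z) (fun B => ∑ t ∈ range N, ∏ i ∈ insert 0 (insert g J), XA Z B (t + i)) A
      - ∑ J ∈ (Ioo 0 g).powersetCard j,
          ε g * (N * (cc s' (j + 2) * avgI s y (insert 0 (insert g J))))|
      ≤ ∑ J ∈ (Ioo 0 g).powersetCard j,
          δ * (N * (cc s' (j + 2) * avgI s y (insert 0 (insert g J)))) + (H : ℝ) ^ j * E := by
    intro g hg
    rw [Finset.mem_Icc] at hg
    rw [← Finset.sum_sub_distrib]
    refine (Finset.abs_sum_le_sum_abs _ _).trans ?_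
    calc ∑ J ∈ (Ioo 0 g).powersetCard j, |ε g *
          Av (lg r Z) (fun B => ∑ t ∈ range N, ∏ i ∈ insert 0 (insert g J), XA Z B (t + i)) A
          - ε g * (N * (cc s' (j + 2) * avgI s y (insert 0 (insert g J))))|
        ≤ ∑ J ∈ (Ioo 0 g).powersetCard j,
          (δ * (N * (cc s' (j + 2) * avgI s y (insert 0 (insert g J)))) + E) := by
          apply Finset.sum_le_sum
          intro J hJ
          have hcard := card_insert_two (by omega) hJ
          have h2 := hC (insert 0 (insert g J)) (Finset.insert_nonempty _ _)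
            (insert_two_le hg.2 hJ) (by omega)
          rw [hcard] at h2
          rw [← mul_sub, abs_mul]
          calc |ε g| * |Av (lg r Z) (fun B => ∑ t ∈ range N,
              ∏ i ∈ insert 0 (insert g J), XA Z B (t + i)) A
            - N * (cc s' (j + 2) * avgI s y (insert 0 (insert g J)))|
              ≤ 1 * |Av (lg r Z) (fun B => ∑ t ∈ range N,
              ∏ i ∈ insert 0 (insert g J), XA Z B (t + i)) A
            - N * (cc s' (j + 2) * avgI s y (insert 0 (insert g J)))| :=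
                mul_le_mul_of_nonneg_right (hε g) (abs_nonneg _)
            _ ≤ _ := by rw [one_mul]; exact h2
      _ = ∑ J ∈ (Ioo 0 g).powersetCard j,
          δ * (N * (cc s' (j + 2) * avgI s y (insert 0 (insert g J))))
          + (((Ioo 0 g).powersetCard j).card : ℝ) * E := by
          rw [Finset.sum_add_distrib, Finset.sum_const, nsmul_eq_mul]
      _ ≤ _ := by
          apply add_le_add le_rfl
          exact mul_le_mul_of_nonneg_right (card_powersetCard_Ioo_le hg.2) hE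
  calc _ ≤ ∑ g ∈ Icc 1 H, (∑ J ∈ (Ioo 0 g).powersetCard j,
          δ * (N * (cc s' (j + 2) * avgI s y (insert 0 (insert g J)))) + (H : ℝ) ^ j * E) :=
        Finset.sum_le_sum h1
    _ = _ := by
      rw [Finset.sum_add_distrib, Finset.sum_const, Nat.card_Icc, nsmul_eq_mul]
      simp
      ring

theorem sgg : SGG := by
  intro r Z H R N A δ E hH hHr hrZ hRH hδ hE hC
  set s := Ps (3 * H + 1) with hs
  set s' := Ps Z \ s with hs'
  have hss : SieveSys s (yA A) := sieveSysA A _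
  have hG : 0 < GG s := Gz_pos (3 * H + 1)
  have hN0 : (0 : ℝ) ≤ N := Nat.cast_nonneg N
  have hR : ∀ p ∈ s', 2 * (R + 2) ≤ p := by
    intro p hp
    rw [hs', Finset.mem_sdiff, hs, mem_Ps, mem_Ps] at hp
    obtain ⟨⟨h1, h2, h3⟩, h4⟩ := hp
    by_contra h
    exact h4 ⟨h1, by omega, h3⟩
  -- pointwise Bonferroni
  have hpt : ∀ B : ℕ → ℕ, ∀ t, |sig (XA Z B) H t - ∑ j ∈ range R, (-1 : ℝ) ^ j * ∑ g ∈ Icc 1 H,
      (-1 : ℝ) ^ g * XA Z B (t + g) *
        Pool.Agent.Helper90.Twin.EE (Ioo 0 g) (fun i => XA Z B (t + i)) j|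
      ≤ ∑ g ∈ Icc 1 H, (1 : ℝ) * XA Z B (t + g) *
        Pool.Agent.Helper90.Twin.EE (Ioo 0 g) (fun i => XA Z B (t + i)) R := by
    intro B t
    have e1 : sig (XA Z B) H t - ∑ j ∈ range R, (-1 : ℝ) ^ j * ∑ g ∈ Icc 1 H,
        (-1 : ℝ) ^ g * XA Z B (t + g) *
          Pool.Agent.Helper90.Twin.EE (Ioo 0 g) (fun i => XA Z B (t + i)) j
        = ∑ g ∈ Icc 1 H, (-1 : ℝ) ^ g * XA Z B (t + g) * (∏ i ∈ Ioo 0 g, (1 - XA Z B (t + i))
          - TT (Ioo 0 g) (fun i => XA Z B (t + i)) R) := by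
      unfold sig TT
      simp_rw [mul_sub, Finset.sum_sub_distrib, Finset.mul_sum]
      congr 1
      rw [Finset.sum_comm]
      apply Finset.sum_congr rfl
      intro g _
      apply Finset.sum_congr rfl
      intro r _
      ring
    rw [e1]
    refine (Finset.abs_sum_le_sum_abs _ _).trans ?_
    apply Finset.sum_le_sum
    intro g _
    rw [abs_mul, abs_mul, abs_pow, abs_neg, abs_one, one_pow, abs_of_nonneg (XA_nonneg _ _ _)]
    exact mul_le_mul_of_nonneg_left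
      (bonferroni_abs (fun i _ => XA_nonneg _ _ _) (fun i _ => XA_le_one _ _ _) R)
      (by linarith [XA_nonneg Z B (t + g)])
  have hcc : ∀ j, j ≤ R → 0 ≤ cc s' (j + 2) := fun j hj =>
    cc_nonneg (fun p hp => by have := hR p hp; omega)
  have htail : ∀ j, avS s (yA A) (fun _ => 1) H j ≤ (Gz (3 * H + 1) *
      (2 * (H * Gz (3 * H + 1))) ^ (j + 1)
      + (H : ℝ) ^ j / Gz (3 * H + 1) ^ 2) / (j.factorial : ℝ) := fun j =>
    tail_main hss H j hH hG
  -- the alternating sums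
  have hM : ∀ j ∈ range R, |Av (lg r Z) (fun B => ∑ t ∈ range N, XA Z B t * ∑ g ∈ Icc 1 H,
      (-1 : ℝ) ^ g * XA Z B (t + g) *
        Pool.Agent.Helper90.Twin.EE (Ioo 0 g) (fun i => XA Z B (t + i)) j) A|
      ≤ N * (cc s' (j + 2) * ((H : ℝ) ^ j * Real.sqrt H))
            + (δ * (N * (cc s' (j + 2) * ((Gz (3 * H + 1) * (2 * (H * Gz (3 * H + 1))) ^ (j + 1)
                + (H : ℝ) ^ j / Gz (3 * H + 1) ^ 2) / (j.factorial : ℝ))))
                + (H : ℝ) ^ (j + 1) * E) := by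
    intro j hj
    rw [mem_range] at hj
    have h1 := transferA hC hE (fun g => (-1 : ℝ) ^ g)
      (fun g => by rw [abs_pow, abs_neg, abs_one, one_pow]) (j := j) (by omega)
    have h2 := alt_main hss H j hH
    have hc := hcc j hj.le
    have h3 : |(N : ℝ) * (cc s' (j + 2) * avS s (yA A) (fun g => (-1 : ℝ) ^ g) H j)|
        ≤ N * (cc s' (j + 2) * ((H : ℝ) ^ j * Real.sqrt H)) := by
      rw [abs_mul, abs_mul, Nat.abs_cast, abs_of_nonneg hc]
      exact mul_le_mul_of_nonneg_left (mul_le_mul_of_nonneg_left h2 hc) (Nat.cast_nonneg _)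
    have h4 := abs_le.1 h1
    have h5 := abs_le.1 h3
    have h6 : δ * (N * (cc s' (j + 2) * avS s (yA A) (fun _ => 1) H j))
        ≤ δ * (N * (cc s' (j + 2) * ((Gz (3 * H + 1) * (2 * (H * Gz (3 * H + 1))) ^ (j + 1)
                + (H : ℝ) ^ j / Gz (3 * H + 1) ^ 2) / (j.factorial : ℝ)))) :=
      mul_le_mul_of_nonneg_left (mul_le_mul_of_nonneg_left
        (mul_le_mul_of_nonneg_left (htail j) hc) hN0) hδ
    rw [abs_le]
    constructor <;> linarith [h4.1, h4.2, h5.1, h5.2]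
  -- the tail
  have hTail : Av (lg r Z) (fun B => ∑ t ∈ range N, XA Z B t * ∑ g ∈ Icc 1 H,
      (1 : ℝ) * XA Z B (t + g) *
        Pool.Agent.Helper90.Twin.EE (Ioo 0 g) (fun i => XA Z B (t + i)) R) A
      ≤ (1 + δ) * (N * (cc s' (R + 2) * ((Gz (3 * H + 1) * (2 * (H * Gz (3 * H + 1))) ^ (R + 1)
            + (H : ℝ) ^ R / Gz (3 * H + 1) ^ 2) / (R.factorial : ℝ))))
            + (H : ℝ) ^ (R + 1) * E := by
    have h1 := transferA hC hE (fun _ => (1 : ℝ)) (fun g => by simp) (j := R) le_rfl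
    have hc := hcc R le_rfl
    have h3 := mul_le_mul_of_nonneg_left (mul_le_mul_of_nonneg_left (htail R) hc) hN0
    have h5 := mul_le_mul_of_nonneg_left h3 hδ
    have h4 := (abs_le.1 h1).2
    linarith
  -- assemble
  have e2 : ∀ B : ℕ → ℕ, ∑ t ∈ range N, XA Z B t * sig (XA Z B) H t
      = ∑ j ∈ range R, (-1 : ℝ) ^ j * (∑ t ∈ range N, XA Z B t * ∑ g ∈ Icc 1 H,
          (-1 : ℝ) ^ g * XA Z B (t + g) *
            Pool.Agent.Helper90.Twin.EE (Ioo 0 g) (fun i => XA Z B (t + i)) j)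
        + ∑ t ∈ range N, XA Z B t * (sig (XA Z B) H t - ∑ j ∈ range R, (-1 : ℝ) ^ j *
          ∑ g ∈ Icc 1 H, (-1 : ℝ) ^ g * XA Z B (t + g) *
            Pool.Agent.Helper90.Twin.EE (Ioo 0 g) (fun i => XA Z B (t + i)) j) := by
    intro B
    have e3 : ∑ j ∈ range R, (-1 : ℝ) ^ j * (∑ t ∈ range N, XA Z B t * ∑ g ∈ Icc 1 H,
          (-1 : ℝ) ^ g * XA Z B (t + g) *
            Pool.Agent.Helper90.Twin.EE (Ioo 0 g) (fun i => XA Z B (t + i)) j)
        = ∑ t ∈ range N, XA Z B t * ∑ j ∈ range R, (-1 : ℝ) ^ j * ∑ g ∈ Icc 1 H,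
          (-1 : ℝ) ^ g * XA Z B (t + g) *
            Pool.Agent.Helper90.Twin.EE (Ioo 0 g) (fun i => XA Z B (t + i)) j := by
      simp_rw [Finset.mul_sum]
      rw [Finset.sum_comm]
      apply Finset.sum_congr rfl
      intro t _
      apply Finset.sum_congr rfl
      intro r _
      apply Finset.sum_congr rfl
      intro g _
      ring
    rw [e3, ← Finset.sum_add_distrib]
    apply Finset.sum_congr rfl
    intro t _
    ring
  have e4 : (fun B => ∑ t ∈ range N, XA Z B t * sig (XA Z B) H t)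
      = fun B => ∑ j ∈ range R, (-1 : ℝ) ^ j * (∑ t ∈ range N, XA Z B t * ∑ g ∈ Icc 1 H,
          (-1 : ℝ) ^ g * XA Z B (t + g) *
            Pool.Agent.Helper90.Twin.EE (Ioo 0 g) (fun i => XA Z B (t + i)) j)
        + ∑ t ∈ range N, XA Z B t * (sig (XA Z B) H t - ∑ j ∈ range R, (-1 : ℝ) ^ j *
          ∑ g ∈ Icc 1 H, (-1 : ℝ) ^ g * XA Z B (t + g) *
            Pool.Agent.Helper90.Twin.EE (Ioo 0 g) (fun i => XA Z B (t + i)) j) := funext e2
  rw [e4, Av_add]
  refine (abs_add_le _ _).trans (add_le_add ?_ ?_)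
  · rw [Av_sum]
    refine (Finset.abs_sum_le_sum_abs _ _).trans ?_
    apply Finset.sum_le_sum
    intro j hj
    rw [Av_mul_left, abs_mul, abs_pow, abs_neg, abs_one, one_pow, one_mul]
    exact hM j hj
  · refine (abs_Av_le _ _ _).trans (le_trans (Av_mono _ _ _ _ ?_) hTail)
    intro B
    refine (Finset.abs_sum_le_sum_abs _ _).trans ?_
    apply Finset.sum_le_sum
    intro t _
    rw [abs_mul, abs_of_nonneg (XA_nonneg Z B t)]
    exact mul_le_mul_of_nonneg_left (hpt B t) (XA_nonneg Z B t)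

end Pool.Agent.Helper93.BFT
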